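import Mathlib
import Pool.Agent.H61.FbB
import Pool.Agent.H61.FbDefs

set_option autoImplicit false

namespace Pool.Agent.Results.MP_43bafb_an.Yes

open Pool.Agent.H61.FbDefs Pool.Agent.H61.Fb

theorem result {E X : Type} [NormedAddCommGroup E] [NormedSpace ℝ E] [CompleteSpace E]
    [NormedAddCommGroup X] [Lattice X] [NormedSpace ℝ X] [IsOrderedAddMonoid X] [HasSolidNorm X]
    [PosSMulMono ℝ X] [CompleteSpace X] (p : ℝ) (hp : 1 ≤ p) (δ : E →L[ℝ] X) (h : IsFree p δ)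
    (x' : E →L[ℝ] ℝ) (φ : X →L[ℝ] ℝ) (hφ : LatHom φ) (hx : φ.comp δ = x') :
    Attains x' ↔ Attains φ := by
  have n : ‖φ‖ = ‖x'‖ := (h.ext ℝ (conv_real p) x').2 φ hφ hx
  subst hx
  refine ⟨fun ⟨x, h1, h2⟩ => ⟨δ x, (h.isom x).trans_le h1, h2.trans n.symm⟩, fun ⟨f, h1, h2⟩ => ?_⟩
  rcases (norm_nonneg φ).eq_or_lt with c | c
  · exact ⟨0, by simp, by rw [map_zero, ← n, c]⟩
  · obtain ⟨x, h3, h4⟩ := main h hp (lat_smul hφ (inv_pos.2 c).le) (by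
      rw [ContinuousLinearMap.smul_comp, norm_smul, ← n, norm_inv, norm_norm,
        inv_mul_cancel₀ c.ne']) h1 (by rw [smul_apply, h2, smul_eq_mul, inv_mul_cancel₀ c.ne'])
    refine ⟨x, h3, ?_⟩
    rw [smul_apply, smul_eq_mul, inv_mul_eq_one₀ c.ne'] at h4
    rw [← n, h4]
    rfl

end Pool.Agent.Results.MP_43bafb_an.Yes
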